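import Mathlib
import Pool.Agent.Run7.h940.PACH.Iface

set_option autoImplicit false

namespace Run7.h629.PACH

open Finset Module Run7.h940.PACH

/-- Membership of `0` in the convex hull of a finite family. -/
theorem hull_weights {V : Type} [AddCommGroup V] [Module ℝ V] {ι : Type} [Fintype ι]
    (x : ι → V) (h : (0 : V) ∈ convexHull ℝ (Set.range x)) :
      ∃ w : ι → ℝ, (∀ i, 0 ≤ w i) ∧ ∑ i, w i = 1 ∧ ∑ i, w i • x i = 0 := by
  classical
  rw [convexHull_range_eq_exists_affineCombination] at h
  obtain ⟨s, w, hw0, hw1, hs⟩ := h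
  refine ⟨fun i => if i ∈ s then w i else 0, ?_, ?_, ?_⟩
  · intro i
    dsimp only
    split_ifs with hi
    · exact hw0 i hi
    · exact le_refl _
  · rw [Finset.sum_ite_mem, Finset.univ_inter]
    exact hw1
  · rw [Finset.affineCombination_eq_linear_combination _ _ _ hw1] at hs
    simp only [ite_smul, zero_smul]
    rw [Finset.sum_ite_mem, Finset.univ_inter]
    exact hs

/-- In a good tuple every vector is in the span of the others. -/
theorem mem_span_others {V : Type} [AddCommGroup V] [Module ℝ V] {ι : Type} [Fintype ι]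
    [DecidableEq ι] {x : ι → V} (hx : Good x) (i : ι) :
    x i ∈ Submodule.span ℝ (Set.range fun j : {j : ι // j ≠ i} => x j) := by
  classical
  obtain ⟨w, hw0, hw1, hs⟩ := hull_weights x hx.1
  have hsplit : w i • x i + ∑ j : {j : ι // j ≠ i}, w j • x j = 0 := by
    rw [← hs, ← Finset.sum_subtype (univ.filter fun j : ι => j ≠ i) (by simp)
        (fun j : ι => w j • x j)]
    rw [Finset.filter_ne' univ i]
    exact Finset.add_sum_erase univ (fun j => w j • x j) (Finset.mem_univ i)
  have hi : w i ≠ 0 := by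
    intro h0
    have hli := Fintype.linearIndependent_iff.1 (hx.2 i) (fun j => w j) (by
      rw [h0, zero_smul, zero_add] at hsplit
      exact hsplit)
    have : ∑ j, w j = 0 := by
      refine Finset.sum_eq_zero fun j _ => ?_
      rcases eq_or_ne j i with h | h
      · rw [h]; exact h0
      · exact hli ⟨j, h⟩
    rw [hw1] at this
    exact one_ne_zero this
  have hxi : x i = -(w i)⁻¹ • ∑ j : {j : ι // j ≠ i}, w j • x j := by
    have h1 : ∑ j : {j : ι // j ≠ i}, w j • x j = - (w i • x i) := by
      rw [eq_neg_iff_add_eq_zero, add_comm]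
      exact hsplit
    rw [h1, smul_neg, neg_smul, neg_neg, smul_smul, inv_mul_cancel₀ hi, one_smul]
  rw [hxi]
  exact Submodule.smul_mem _ _ (Submodule.sum_mem _ fun j _ => Submodule.smul_mem _ _
    (Submodule.subset_span ⟨j, rfl⟩))

theorem span_eq_others {V : Type} [AddCommGroup V] [Module ℝ V] {ι : Type} [Fintype ι]
    [DecidableEq ι] {x : ι → V} (hx : Good x) (i : ι) :
    Submodule.span ℝ (Set.range x) =
      Submodule.span ℝ (Set.range fun j : {j : ι // j ≠ i} => x j) := by
  apply le_antisymm
  · rw [Submodule.span_le]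
    rintro _ ⟨j, rfl⟩
    rcases eq_or_ne j i with h | h
    · rw [h]; exact mem_span_others hx i
    · exact Submodule.subset_span ⟨⟨j, h⟩, rfl⟩
  · apply Submodule.span_mono
    rintro _ ⟨j, rfl⟩
    exact ⟨j, rfl⟩

theorem t_LEV : S_CLS → S_SUB → S_LEV := by
  intro hCLS hSUB k α hα
  classical
  obtain ⟨φ, hφ, hC⟩ := hCLS k α hα
  obtain ⟨c, hc, hS⟩ := hSUB k φ hφ
  refine ⟨c, hc, ?_⟩
  intro V _ _ _ ι _ _ hk C G hCne hG hd hgood
  obtain ⟨w, hw⟩ := hC ι V (Submodule ℝ V) hk C G (fun x => Submodule.span ℝ (Set.range x)) hCne hG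
    hd (by
      intro x hx x' hx' i hij
      rw [span_eq_others (hgood x hx) i, span_eq_others (hgood x' hx') i]
      congr 2
      funext j
      exact hij j j.2)
  refine hS V ι hk C (G.filter fun x => Submodule.span ℝ (Set.range x) = w) w hCne
    ((Finset.filter_subset _ _).trans hG) ?_ ?_
  · refine hw.trans (le_of_eq ?_)
    rw [← Set.ncard_coe_finset]
    congr 2
    ext x
    simp
  · intro x hx
    rw [Finset.mem_filter] at hx
    exact ⟨hgood x hx.1, hx.2⟩

end Run7.h629.PACH
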