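import Mathlib
import Pool.Agent.Run7.h940.PACH.Iface

set_option autoImplicit false

namespace Run7.h629.PACH

open Finset Module Run7.h940.PACH

/-- Membership of `0` in the convex hull of a finite family. -/
theorem zero_mem_hull_iff {V : Type} [AddCommGroup V] [Module ℝ V] {ι : Type} [Fintype ι]
    (x : ι → V) : (0 : V) ∈ convexHull ℝ (Set.range x) ↔
      ∃ w : ι → ℝ, (∀ i, 0 ≤ w i) ∧ ∑ i, w i = 1 ∧ ∑ i, w i • x i = 0 := by
  classical
  constructor
  · intro h
    rw [convexHull_range_eq_exists_affineCombination] at h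
    obtain ⟨s, w, hw0, hw1, hs⟩ := h
    refine ⟨fun i => if i ∈ s then w i else 0, ?_, ?_, ?_⟩
    · intro i
      dsimp only
      split_ifs with hi
      · exact hw0 i hi
      · exact le_refl _
    · rw [Finset.sum_ite_mem, Finset.univ_inter]
      exact hw1
    · rw [Finset.affineCombination_eq_linear_combination _ _ _ hw1] at hs
      simp only [ite_smul, zero_smul]
      rw [Finset.sum_ite_mem, Finset.univ_inter]
      exact hs
  · rintro ⟨w, hw0, hw1, hs⟩
    rw [← hs]
    exact (convex_convexHull ℝ (Set.range x)).sum_mem (fun i _ => hw0 i) hw1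
      (fun i _ => subset_convexHull ℝ _ ⟨i, rfl⟩)

/-- A weight vector supported in `I`. -/
def Wt {V : Type} [AddCommGroup V] [Module ℝ V] {ι : Type} [Fintype ι] (x : ι → V)
    (I : Finset ι) : Prop :=
  ∃ w : ι → ℝ, (∀ i, 0 ≤ w i) ∧ (∀ i, i ∉ I → w i = 0) ∧ 0 < ∑ i, w i ∧ ∑ i, w i • x i = 0

/-- The minimal support argument: reduce a support by a linear relation with a positive value. -/
theorem Wt.reduce {V : Type} [AddCommGroup V] [Module ℝ V] {ι : Type} [Fintype ι] [DecidableEq ι]
    {x : ι → V} {I : Finset ι} {w : ι → ℝ} (hw0 : ∀ i, 0 ≤ w i) (hwI : ∀ i, i ∉ I → w i = 0)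
    (hs : ∑ i, w i • x i = 0) {i : ι} (hi : 0 < w i) {m : ι → ℝ} (hmi : m i = 0)
    (hmI : ∀ j, j ∉ I → m j = 0) (hm : ∑ j, m j • x j = 0) {j0 : ι} (hj0 : 0 < m j0) :
    ∃ j ∈ I, Wt x (I.erase j) := by
  classical
  obtain ⟨j1, hj1, hmin⟩ := Finset.exists_min_image (univ.filter fun j => 0 < m j)
    (fun j => w j / m j) ⟨j0, by simp [hj0]⟩
  have hm1 : 0 < m j1 := (Finset.mem_filter.1 hj1).2
  have hj1I : j1 ∈ I := by
    by_contra h
    rw [hmI j1 h] at hm1
    exact lt_irrefl _ hm1
  refine ⟨j1, hj1I, fun j => w j - (w j1 / m j1) * m j, ?_, ?_, ?_, ?_⟩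
  · intro j
    dsimp only
    have ht : 0 ≤ w j1 / m j1 := div_nonneg (hw0 j1) hm1.le
    rcases lt_or_ge 0 (m j) with h | h
    · have := hmin j (by simp [h])
      have h2 : w j1 / m j1 * m j ≤ w j := by
        rw [le_div_iff₀ h] at this
        exact this
      linarith
    · have h2 : w j1 / m j1 * m j ≤ 0 := mul_nonpos_of_nonneg_of_nonpos ht h
      have := hw0 j
      linarith
  · intro j hj
    dsimp only
    rcases eq_or_ne j j1 with h | h
    · subst h
      field_simp
      ring
    · have hjI : j ∉ I := fun hh => hj (Finset.mem_erase.2 ⟨h, hh⟩)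
      rw [hwI j hjI, hmI j hjI]
      ring
  · have hnn : ∀ j ∈ (univ : Finset ι), 0 ≤ w j - (w j1 / m j1) * m j := by
      intro j _
      have ht : 0 ≤ w j1 / m j1 := div_nonneg (hw0 j1) hm1.le
      rcases lt_or_ge 0 (m j) with h | h
      · have := hmin j (by simp [h])
        have h2 : w j1 / m j1 * m j ≤ w j := by
          rw [le_div_iff₀ h] at this
          exact this
        linarith
      · have h2 : w j1 / m j1 * m j ≤ 0 := mul_nonpos_of_nonneg_of_nonpos ht h
        have := hw0 j
        linarith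
    refine lt_of_lt_of_le ?_ (Finset.single_le_sum hnn (Finset.mem_univ i))
    rw [hmi]
    simpa using hi
  · have : ∀ j, (w j - (w j1 / m j1) * m j) • x j = w j • x j - (w j1 / m j1) • (m j • x j) := by
      intro j
      rw [sub_smul, mul_smul]
    simp only [this]
    rw [Finset.sum_sub_distrib, hs, ← Finset.smul_sum, hm, smul_zero, sub_zero]

theorem t_MIN : S_MIN := by
  intro V _ _ ι _ x hx
  classical
  -- a support of minimal cardinality
  have hex : ∃ n, ∃ I : Finset ι, I.card = n ∧ Wt x I := by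
    obtain ⟨w, hw0, hw1, hs⟩ := (zero_mem_hull_iff x).1 hx
    exact ⟨_, univ, rfl, w, hw0, fun i hi => absurd (Finset.mem_univ i) hi,
      by rw [hw1]; exact one_pos, hs⟩
  obtain ⟨I, hIn, w, hw0, hwI, hsum, hs⟩ := Nat.find_spec hex
  have hminI : ∀ J : Finset ι, Wt x J → I.card ≤ J.card := by
    intro J hJ
    rw [hIn]
    exact Nat.find_min' hex ⟨J, rfl, hJ⟩
  have hpos : ∀ i ∈ I, 0 < w i := by
    intro i hi
    by_contra h
    have h0 : w i = 0 := le_antisymm (not_lt.1 h) (hw0 i)
    have := hminI (I.erase i) ⟨w, hw0, fun j hj => by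
      rcases eq_or_ne j i with h1 | h1
      · rw [h1]; exact h0
      · exact hwI j fun hh => hj (Finset.mem_erase.2 ⟨h1, hh⟩), hsum, hs⟩
    rw [Finset.card_erase_of_mem hi] at this
    have := Finset.card_pos.2 ⟨i, hi⟩
    omega
  have hne : I.Nonempty := by
    by_contra h
    rw [Finset.not_nonempty_iff_eq_empty] at h
    subst h
    have : ∑ i, w i = 0 := Finset.sum_eq_zero fun i _ => hwI i (Finset.notMem_empty i)
    linarith
  have hsumI : ∑ i : {i : ι // i ∈ I}, w i = ∑ i, w i := by
    rw [Finset.sum_coe_sort I w]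
    exact Finset.sum_subset (Finset.subset_univ I) fun i _ hi => hwI i hi
  have hsI : ∑ i : {i : ι // i ∈ I}, w i • x i = 0 := by
    rw [Finset.sum_coe_sort I fun i => w i • x i, ← hs]
    exact Finset.sum_subset (Finset.subset_univ I) fun i _ hi => by rw [hwI i hi, zero_smul]
  refine ⟨I, hne, ?_, ?_⟩
  · rw [zero_mem_hull_iff]
    refine ⟨fun i => (∑ i, w i)⁻¹ * w i, fun i => mul_nonneg (inv_nonneg.2 hsum.le) (hw0 _), ?_, ?_⟩
    · rw [← Finset.mul_sum, hsumI]
      exact inv_mul_cancel₀ hsum.ne'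
    · simp only [mul_smul]
      rw [← Finset.smul_sum, hsI, smul_zero]
  · intro i
    rw [Fintype.linearIndependent_iff]
    intro g hg
    -- extend by zero
    let m : ι → ℝ := fun j => if h : j ∈ I then
      (if h' : (⟨j, h⟩ : {i : ι // i ∈ I}) ≠ i then g ⟨⟨j, h⟩, h'⟩ else 0) else 0
    have hmi : m i = 0 := by
      simp only [m]
      rw [dif_pos i.2, dif_neg]
      simp
    have hmI : ∀ j, j ∉ I → m j = 0 := by
      intro j hj
      simp only [m]
      rw [dif_neg hj]
    have hmg : ∀ j : {j : {i : ι // i ∈ I} // j ≠ i}, m j.1.1 = g j := by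
      intro j
      simp only [m]
      rw [dif_pos j.1.2, dif_pos j.2]
    have hm : ∑ j, m j • x j = 0 := by
      rw [← Finset.sum_subset (Finset.subset_univ I) fun i _ hi => by rw [hmI i hi, zero_smul],
        ← Finset.sum_coe_sort I fun i => m i • x i]
      rw [← hg]
      symm
      have h1 : ∑ j : {j : {i : ι // i ∈ I} // j ≠ i}, g j • x j.1.1 =
          ∑ j : {j : {i : ι // i ∈ I} // j ≠ i}, m j.1.1 • x j.1.1 :=
        Finset.sum_congr rfl fun j _ => by rw [hmg]
      rw [h1]
      rw [← Finset.sum_subtype (univ.filter fun j : {i : ι // i ∈ I} => j ≠ i) (by simp)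
        (fun j : {i : ι // i ∈ I} => m j.1 • x j.1)]
      rw [Finset.sum_filter]
      refine Finset.sum_congr rfl fun j _ => ?_
      split_ifs with h
      · rfl
      · rw [not_not.1 h, hmi, zero_smul]
    by_contra hcon
    push Not at hcon
    obtain ⟨j0, hj0⟩ := hcon
    have hred : ∃ j ∈ I, Wt x (I.erase j) := by
      rcases lt_or_gt_of_ne hj0 with h | h
      · refine Wt.reduce hw0 hwI hs (hpos i.1 i.2) (m := fun j => - m j) (by rw [hmi, neg_zero])
          (fun j hj => by rw [hmI j hj, neg_zero]) ?_ (j0 := j0.1.1) ?_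
        · simp only [neg_smul]
          rw [Finset.sum_neg_distrib, hm, neg_zero]
        · rw [hmg]
          linarith
      · exact Wt.reduce hw0 hwI hs (hpos i.1 i.2) hmi hmI hm (j0 := j0.1.1) (by rw [hmg]; exact h)
    obtain ⟨j, hj, hW⟩ := hred
    have := hminI _ hW
    rw [Finset.card_erase_of_mem hj] at this
    have := Finset.card_pos.2 ⟨j, hj⟩
    omega

end Run7.h629.PACH
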